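import Pool.Agent.Helper92_Strip.EY1

/-!
# EY and K2B: the moments of the maximum
-/

namespace Pool.Agent.Helper92_Strip

open Finset Pool.Agent.Helper38_Strip

section Q

variable {x : ℝ} {N : ℕ}

lemma half_zero (hf : FourStatement) :
    2 * (∑' k : ℕ, Qn x N (k + 2) * Qn x N (k + 2)) =
      (∑' m : ℤ, Qn x N m * Qn x N (m + 0)) - 2 * (Qn x N 1 * Qn x N 1) := by
  rw [split_int hf]
  have h0 := Qn_at_zero (x := x) (N := N) hf
  have e1 : ∑' k : ℕ, Qn x N k * Qn x N (k + 0) =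
      ∑' k : ℕ, Qn x N (k + 1) * Qn x N (k + 1) := by
    have hs : Summable (fun k : ℕ => Qn x N k * Qn x N (k + 0)) := by
      have := summN (x := x) (N := N) hf 0 0
      simpa using this
    rw [hs.tsum_eq_zero_add]
    simp only [Nat.cast_zero, h0, zero_mul, zero_add]
    refine tsum_congr fun k => ?_
    push_cast
    rw [add_zero]
  have e2 : ∑' k : ℕ, Qn x N (k + 1) * Qn x N (k + 1) =
      Qn x N 1 * Qn x N 1 + ∑' k : ℕ, Qn x N (k + 2) * Qn x N (k + 2) := by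
    have hs : Summable (fun k : ℕ => Qn x N (k + 1) * Qn x N (k + 1)) :=
      summN (x := x) (N := N) hf 1 1
    rw [hs.tsum_eq_zero_add]
    have f1 : Qn x N (((0 : ℕ) : ℤ) + 1) = Qn x N 1 := by norm_num
    have f2 : ∑' k : ℕ, Qn x N (((k + 1 : ℕ) : ℤ) + 1) * Qn x N (((k + 1 : ℕ) : ℤ) + 1) =
        ∑' k : ℕ, Qn x N (k + 2) * Qn x N (k + 2) := by
      refine tsum_congr fun k => ?_
      rw [show (((k + 1 : ℕ) : ℤ) + 1) = k + 2 by push_cast; ring]
    rw [f1, f2]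
  have e3 : ∑' k : ℕ, Qn x N (k + 1) * Qn x N (k + (1 - 0)) =
      ∑' k : ℕ, Qn x N (k + 1) * Qn x N (k + 1) := by
    refine tsum_congr fun k => ?_
    rw [sub_zero]
  rw [e3, e1, e2]
  ring

lemma half_two (hf : FourStatement) :
    2 * (∑' k : ℕ, Qn x N (k + 1) * Qn x N (k + 3)) =
      (∑' m : ℤ, Qn x N m * Qn x N (m + 2)) + Qn x N 1 * Qn x N 1 := by
  rw [split_int hf]
  have h0 := Qn_at_zero (x := x) (N := N) hf
  have e1 : ∑' k : ℕ, Qn x N k * Qn x N (k + 2) =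
      ∑' k : ℕ, Qn x N (k + 1) * Qn x N (k + 3) := by
    have hs : Summable (fun k : ℕ => Qn x N k * Qn x N (k + 2)) := by
      have := summN (x := x) (N := N) hf 0 2
      simpa using this
    rw [hs.tsum_eq_zero_add]
    simp only [Nat.cast_zero, h0, zero_mul, zero_add]
    refine tsum_congr fun k => ?_
    push_cast
    rw [show (k : ℤ) + 1 + 2 = k + 3 by ring]
  have hs2 : Summable (fun k : ℕ => Qn x N (k + 1) * Qn x N (k + (1 - 2))) :=
    summN (x := x) (N := N) hf 1 (1 - 2)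
  have e2 : ∑' k : ℕ, Qn x N (k + 1) * Qn x N (k + (1 - 2)) =
      -(Qn x N 1 * Qn x N 1) + ∑' k : ℕ, Qn x N (k + 1) * Qn x N (k + 3) := by
    rw [← hs2.sum_add_tsum_nat_add 2]
    simp only [Finset.sum_range_succ, Finset.sum_range_zero, zero_add]
    have f1 : Qn x N (((0 : ℕ) : ℤ) + (1 - 2)) = - Qn x N 1 := by
      rw [← Qn_neg hf]; norm_num
    have f2 : Qn x N (((1 : ℕ) : ℤ) + (1 - 2)) = 0 := by
      rw [← h0]; norm_num
    rw [f1, f2]
    have f4 : ∑' k : ℕ, Qn x N (((k + 2 : ℕ) : ℤ) + 1) * Qn x N (((k + 2 : ℕ) : ℤ) + (1 - 2)) =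
        ∑' k : ℕ, Qn x N (k + 1) * Qn x N (k + 3) := by
      refine tsum_congr fun k => ?_
      push_cast
      rw [show (k : ℤ) + 2 + 1 = k + 3 by ring, show (k : ℤ) + 2 + -1 = k + 1 by ring, mul_comm]
    rw [f4]
    have g1 : Qn x N (((0 : ℕ) : ℤ) + 1) = Qn x N 1 := by norm_num
    rw [g1]
    ring
  rw [e2, e1]
  ring

/-- `T m = Q(m)^2 - Q(m-1) Q(m+1)` -/
noncomputable def Tm (x : ℝ) (N : ℕ) (m : ℤ) : ℝ :=
  Qn x N m ^ 2 - Qn x N (m - 1) * Qn x N (m + 1)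

lemma Tm_neg (hf : FourStatement) (m : ℤ) : Tm x N (-m) = Tm x N m := by
  unfold Tm
  rw [show -m - 1 = -(m + 1) by ring, show -m + 1 = -(m - 1) by ring, Qn_neg hf, Qn_neg hf,
    Qn_neg hf]
  ring

lemma Tm_zero_of (hf : FourStatement) {m : ℤ} (hm : (N : ℤ) + 1 < m) : Tm x N m = 0 := by
  unfold Tm
  rw [Qn_zero_of hf (lt_of_lt_of_le hm (le_abs_self _)),
    Qn_zero_of (m := m + 1) hf (lt_of_lt_of_le (by omega) (le_abs_self _))]
  ring

lemma Tm_one (hf : FourStatement) : Tm x N 1 = Qn x N 1 ^ 2 := by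
  unfold Tm
  rw [show (1 : ℤ) - 1 = 0 by norm_num, Qn_at_zero hf]
  ring

/-- the probability that the maximum is larger than `k`, as a difference -/
lemma tail_eq (hf : FourStatement) (hp : PairStatement) (hy : YLawStatement) (hx : 0 < x)
    (K k : ℕ) (hK : N + 2 ≤ K) :
    (∑ c : Conf N, ∑ g : Conf N, st x 0 c * st x 1 g * if YY c g ≤ (K : ℕ) then 1 else 0) -
      (∑ c : Conf N, ∑ g : Conf N, st x 0 c * st x 1 g * if YY c g ≤ (k : ℕ) then 1 else 0) =
      Tm x N (k + 2) / Qn x N 1 ^ 2 := by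
  have hQ : 0 < Qn x N 1 := (hp x hx N 0).2
  rw [hy x hx N K, hy x hx N k, ← sub_div]
  congr 1
  have z1 : Qn x N ((K : ℤ) + 2) = 0 :=
    Qn_zero_of hf (lt_of_lt_of_le (by omega) (le_abs_self _))
  have z2 : Qn x N ((K : ℤ) + 1) = 0 :=
    Qn_zero_of hf (lt_of_lt_of_le (by omega) (le_abs_self _))
  rw [z1, z2]
  unfold Tm
  rw [show (k : ℤ) + 2 - 1 = k + 1 by ring, show (k : ℤ) + 2 + 1 = k + 3 by ring]
  ring

/-- layer formula for an arbitrary moment: `f (k + 1) - f k = φ k`, `f 0 = 0` -/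
lemma moment_layer (hf : FourStatement) (hp : PairStatement) (hy : YLawStatement) (hx : 0 < x)
    (K : ℕ) (hK : 2 * N + 2 ≤ K) (f : ℕ → ℝ) (h0 : f 0 = 0) :
    (∑ c : Conf N, ∑ g : Conf N, st x 0 c * st x 1 g * f (YY c g).toNat) =
      (∑ k ∈ range K, (f (k + 1) - f k) * Tm x N (k + 2)) / Qn x N 1 ^ 2 := by
  have hl : ∀ n : ℕ, n ≤ K → f n =
      ∑ k ∈ range K, (f (k + 1) - f k) * (if k < n then 1 else 0) := by
    intro n hn
    have h1 : ∀ k ∈ range K, (f (k + 1) - f k) * (if k < n then (1 : ℝ) else 0) =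
        if k < n then (f (k + 1) - f k) else 0 := by
      intro k _
      split_ifs <;> ring
    rw [Finset.sum_congr rfl h1, ← Finset.sum_filter]
    have h3 : (range K).filter (fun k => k < n) = range n := by
      ext k
      simp only [Finset.mem_filter, Finset.mem_range]
      omega
    rw [h3, Finset.sum_range_sub, h0, sub_zero]
  rw [Finset.sum_div]
  have h2 : ∀ k ∈ range K, (f (k + 1) - f k) * Tm x N (k + 2) / Qn x N 1 ^ 2 =
      ∑ c : Conf N, ∑ g : Conf N, st x 0 c * st x 1 g *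
        ((f (k + 1) - f k) * (if k < (YY c g).toNat then 1 else 0)) := by
    intro k _
    rw [mul_div_assoc, ← tail_eq hf hp hy hx K k (by omega), ← Finset.sum_sub_distrib,
      Finset.mul_sum]
    refine Finset.sum_congr rfl fun c _ => ?_
    rw [← Finset.sum_sub_distrib, Finset.mul_sum]
    refine Finset.sum_congr rfl fun g _ => ?_
    have hle : YY c g ≤ (K : ℕ) := (YY_le c g).trans (by omega)
    have hnn := YY_nonneg c g
    by_cases hk : YY c g ≤ (k : ℤ)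
    · have hk' : ¬ k < (YY c g).toNat := by omega
      simp [hk, hk', hle]
    · have hk' : k < (YY c g).toNat := by omega
      simp [hk, hk', hle]
      ring
  symm
  rw [Finset.sum_congr rfl h2, Finset.sum_comm]
  refine Finset.sum_congr rfl fun c _ => ?_
  rw [Finset.sum_comm]
  refine Finset.sum_congr rfl fun g _ => ?_
  have h5 := YY_le c g
  rw [hl (YY c g).toNat (by omega), Finset.mul_sum]

end Q

/-- EY -/
theorem ey (hy : YLawStatement) (hf : FourStatement) (hp : PairStatement) : EYStatement := by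
  intro x hx N
  set K : ℕ := 2 * N + 10 with hK
  have hQ : 0 < Qn x N 1 := (hp x hx N 0).2
  have h1 := moment_layer (x := x) (N := N) hf hp hy hx K (by omega) (fun n => (n : ℝ)) (by simp)
  have h2 : (sE x 0 fun c : Conf N => Psi x 0 c) =
      ∑ c : Conf N, ∑ g : Conf N, st x 0 c * st x 1 g * (((YY c g).toNat : ℕ) : ℝ) := by
    unfold sE Psi
    refine Finset.sum_congr rfl fun c _ => ?_
    beta_reduce
    rw [Finset.mul_sum]
    refine Finset.sum_congr rfl fun g _ => ?_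
    have e2 : (mx N fun m => ht 0 c m + ht (0 + 1) g m) = YY c g := rfl
    have e3 : ((YY c g : ℤ) : ℝ) = (((YY c g).toNat : ℕ) : ℝ) := by
      have := Int.toNat_of_nonneg (YY_nonneg c g)
      exact_mod_cast this.symm
    rw [e2, e3, zero_add]
    ring
  rw [h2]
  have h1' : (∑ c : Conf N, ∑ g : Conf N, st x 0 c * st x 1 g * (((YY c g).toNat : ℕ) : ℝ)) =
      (∑ k ∈ range K, (((k + 1 : ℕ) : ℝ) - (k : ℝ)) * Tm x N (k + 2)) / Qn x N 1 ^ 2 := h1
  rw [h1']
  have h3 : ∑ k ∈ range K, (((k + 1 : ℕ) : ℝ) - (k : ℝ)) * Tm x N (k + 2) =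
      (∑' k : ℕ, Qn x N (k + 2) * Qn x N (k + 2)) -
        ∑' k : ℕ, Qn x N (k + 1) * Qn x N (k + 3) := by
    have e1 := range_tsum (x := x) (N := N) hf 2 2 K (by omega)
    have e2 := range_tsum (x := x) (N := N) hf 1 3 K (by omega)
    simp only [Nat.cast_one, Nat.cast_ofNat] at e1 e2
    rw [← e1, ← e2, ← Finset.sum_sub_distrib]
    refine Finset.sum_congr rfl fun k _ => ?_
    unfold Tm
    rw [show (k : ℤ) + 2 - 1 = k + 1 by ring, show (k : ℤ) + 2 + 1 = k + 3 by ring]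
    push_cast
    ring
  rw [h3]
  have h4 := half_zero (x := x) (N := N) hf
  have h5 := half_two (x := x) (N := N) hf
  have h6 := (hf x N).2.2.2 0
  have h7 := (hf x N).2.2.2 2
  rw [four_tsum hf] at h6 h7
  have h8 : (∫ θ in (-Real.pi)..Real.pi,
        4 * Real.sin θ ^ 4 * (1 + x ^ 2 + 2 * x * Real.cos θ) ^ (2 * N)) =
      (1 / 2) * ((∫ θ in (-Real.pi)..Real.pi,
        4 * Real.sin θ ^ 2 * Real.cos (((0 : ℤ) : ℝ) * θ) *
          (1 + x ^ 2 + 2 * x * Real.cos θ) ^ (2 * N)) -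
        ∫ θ in (-Real.pi)..Real.pi,
        4 * Real.sin θ ^ 2 * Real.cos (((2 : ℤ) : ℝ) * θ) *
          (1 + x ^ 2 + 2 * x * Real.cos θ) ^ (2 * N)) := by
    rw [← intervalIntegral.integral_sub, ← intervalIntegral.integral_const_mul]
    · refine intervalIntegral.integral_congr fun θ _ => ?_
      have hc : Real.cos (((2 : ℤ) : ℝ) * θ) = 2 * Real.cos θ ^ 2 - 1 := by
        push_cast
        exact Real.cos_two_mul θ
      simp only [hc, Int.cast_zero, zero_mul, Real.cos_zero]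
      have hs : Real.sin θ ^ 4 = Real.sin θ ^ 2 * (1 - Real.cos θ ^ 2) := by
        rw [← Real.sin_sq]; ring
      rw [hs]
      ring
    · exact Continuous.intervalIntegrable (by fun_prop) _ _
    · exact Continuous.intervalIntegrable (by fun_prop) _ _
  have h9 : Qn x N 1 ^ 2 ≠ 0 := (pow_pos hQ 2).ne'
  rw [h8, div_sub' h9, div_left_inj' h9]
  linear_combination (1 / 2) * h4 - (1 / 2) * h5 + (1 / 2) * h6 - (1 / 2) * h7

/-- the sum over all integers controls the third moment -/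
lemma sum_Tm (x : ℝ) (N : ℕ) (hf : FourStatement) :
    ∑ m ∈ Icc (-(N : ℤ) - 1) (N + 1),
      (m : ℝ) ^ 2 * (Qn x N m ^ 2 - Qn x N (m - 1) * Qn x N (m + 1)) =
    2 * Qn x N 1 ^ 2 + 2 * ∑ k ∈ range (2 * N + 10), ((k : ℝ) + 2) ^ 2 * Tm x N (k + 2) := by
  have h1 : ∑ m ∈ Icc (-(N : ℤ) - 1) (N + 1),
      (m : ℝ) ^ 2 * (Qn x N m ^ 2 - Qn x N (m - 1) * Qn x N (m + 1)) =
      ∑' m : ℤ, (m : ℝ) ^ 2 * Tm x N m := by
    symm
    refine tsum_eq_sum fun m hm => ?_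
    rw [Finset.mem_Icc] at hm
    rcases le_total 0 m with h | h
    · rw [Tm_zero_of hf (by by_contra h3; exact hm ⟨by omega, by omega⟩), mul_zero]
    · rw [← Tm_neg hf, Tm_zero_of hf (by by_contra h3; exact hm ⟨by omega, by omega⟩), mul_zero]
  have hs1 : Summable (fun k : ℕ => ((k : ℤ) : ℝ) ^ 2 * Tm x N (k : ℤ)) := by
    refine summable_of_ne_finset_zero (s := range (N + 2)) fun m hm => ?_
    rw [Finset.mem_range] at hm
    rw [Tm_zero_of hf (by omega), mul_zero]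
  have hs2 : Summable (fun k : ℕ => ((k : ℝ) + 1) ^ 2 * Tm x N ((k : ℤ) + 1)) := by
    refine summable_of_ne_finset_zero (s := range (N + 2)) fun m hm => ?_
    rw [Finset.mem_range] at hm
    rw [Tm_zero_of hf (by omega), mul_zero]
  have e0 : ∀ k : ℕ, (((-((k : ℤ) + 1) : ℤ)) : ℝ) ^ 2 * Tm x N (-((k : ℤ) + 1)) =
      ((k : ℝ) + 1) ^ 2 * Tm x N ((k : ℤ) + 1) := by
    intro k
    rw [Tm_neg hf]
    push_cast
    ring
  have h2 : ∑' m : ℤ, (m : ℝ) ^ 2 * Tm x N m =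
      2 * ∑' k : ℕ, ((k : ℝ) + 1) ^ 2 * Tm x N ((k : ℤ) + 1) := by
    rw [tsum_of_nat_of_neg_add_one (f := fun m : ℤ => (m : ℝ) ^ 2 * Tm x N m) hs1
      (hs2.congr fun k => (e0 k).symm)]
    rw [tsum_congr e0, hs1.tsum_eq_zero_add]
    have e1 : ∑' k : ℕ, (((k + 1 : ℕ) : ℤ) : ℝ) ^ 2 * Tm x N ((k + 1 : ℕ) : ℤ) =
        ∑' k : ℕ, ((k : ℝ) + 1) ^ 2 * Tm x N ((k : ℤ) + 1) := by
      refine tsum_congr fun k => ?_
      push_cast
      rfl
    rw [e1]
    simp only [Nat.cast_zero, Int.cast_zero]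
    ring
  have h3 : ∑' k : ℕ, ((k : ℝ) + 1) ^ 2 * Tm x N ((k : ℤ) + 1) =
      Qn x N 1 ^ 2 + ∑ k ∈ range (2 * N + 10), ((k : ℝ) + 2) ^ 2 * Tm x N (k + 2) := by
    rw [hs2.tsum_eq_zero_add]
    have e1 : Tm x N (((0 : ℕ) : ℤ) + 1) = Qn x N 1 ^ 2 := by
      rw [← Tm_one hf]; norm_num
    rw [e1]
    have e2 : ∑' k : ℕ, (((k + 1 : ℕ) : ℝ) + 1) ^ 2 * Tm x N (((k + 1 : ℕ) : ℤ) + 1) =
        ∑ k ∈ range (2 * N + 10), ((k : ℝ) + 2) ^ 2 * Tm x N (k + 2) := by
      rw [tsum_eq_sum (s := range (2 * N + 10))]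
      · refine Finset.sum_congr rfl fun k _ => ?_
        rw [show (((k + 1 : ℕ) : ℤ) + 1) = k + 2 by push_cast; ring]
        push_cast
        ring
      · intro m hm
        rw [Finset.mem_range] at hm
        rw [Tm_zero_of hf (by omega), mul_zero]
    rw [e2]
    simp
  rw [h1, h2, h3]
  ring

/-- K2B -/
theorem k2b (hb : BasicStatement) (hy : YLawStatement) (hf : FourStatement)
    (hp : PairStatement) : K2BStatement := by
  intro x hx N
  have hQ : 0 < Qn x N 1 := (hp x hx N 0).2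
  set K : ℕ := 2 * N + 10 with hK
  have hst0 : ∀ c : Conf N, 0 ≤ st x 0 c := (hb x hx N 0).2.1
  have hst1 : ∀ c : Conf N, 0 ≤ st x 1 c := (hb x hx N 1).2.1
  have hone : ∑ c : Conf N, ∑ g : Conf N, st x 0 c * st x 1 g = 1 := by
    have e : ∀ c : Conf N, ∑ g : Conf N, st x 0 c * st x 1 g = st x 0 c := by
      intro c
      rw [← Finset.mul_sum, (hb x hx N 1).2.2.1, mul_one]
    rw [Finset.sum_congr rfl fun c _ => e c, (hb x hx N 0).2.2.1]
  -- moments
  set W : Conf N × Conf N → ℝ := fun q => st x 0 q.1 * st x 1 q.2 with hW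
  set Y : Conf N × Conf N → ℝ := fun q => (((YY q.1 q.2).toNat : ℕ) : ℝ) with hY
  have hW0 : ∀ q, 0 ≤ W q := fun q => mul_nonneg (hst0 _) (hst1 _)
  have hY0 : ∀ q, 0 ≤ Y q := fun q => Nat.cast_nonneg _
  have hW1 : ∑ q, W q = 1 := by
    rw [← hone, ← Finset.univ_product_univ, Finset.sum_product]
  have hK2 : K2 x N = ∑ q, W q * Y q ^ 2 := by
    unfold K2
    rw [← Finset.univ_product_univ, Finset.sum_product]
    refine Finset.sum_congr rfl fun c _ => Finset.sum_congr rfl fun g _ => ?_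
    have e3 : ((YY c g : ℤ) : ℝ) = (((YY c g).toNat : ℕ) : ℝ) := by
      have := Int.toNat_of_nonneg (YY_nonneg c g)
      exact_mod_cast this.symm
    rw [e3]
  -- Lyapunov
  have c1 : (∑ q, W q * Y q) ^ 2 ≤ (∑ q, W q) * ∑ q, W q * Y q ^ 2 := by
    refine Finset.sum_sq_le_sum_mul_sum_of_sq_le_mul _ (fun q _ => hW0 q)
      (fun q _ => mul_nonneg (hW0 q) (sq_nonneg _)) fun q _ => le_of_eq (by ring)
  have c2 : (∑ q, W q * Y q ^ 2) ^ 2 ≤ (∑ q, W q * Y q) * ∑ q, W q * Y q ^ 3 := by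
    refine Finset.sum_sq_le_sum_mul_sum_of_sq_le_mul _ (fun q _ => mul_nonneg (hW0 q) (hY0 q))
      (fun q _ => mul_nonneg (hW0 q) (pow_nonneg (hY0 q) _)) fun q _ => le_of_eq (by ring)
  rw [hW1, one_mul] at c1
  set m1 := ∑ q, W q * Y q with hm1
  set m2 := ∑ q, W q * Y q ^ 2 with hm2
  set m3 := ∑ q, W q * Y q ^ 3 with hm3
  have hm1' : 0 ≤ m1 := Finset.sum_nonneg fun q _ => mul_nonneg (hW0 q) (hY0 q)
  have hm2' : 0 ≤ m2 := Finset.sum_nonneg fun q _ => mul_nonneg (hW0 q) (sq_nonneg _)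
  have hm3' : 0 ≤ m3 := Finset.sum_nonneg fun q _ =>
    mul_nonneg (hW0 q) (pow_nonneg (hY0 q) _)
  have hlyap : m2 ^ 3 ≤ m3 ^ 2 := by
    rcases hm2'.eq_or_lt with h | h
    · rw [← h, zero_pow three_ne_zero]; exact sq_nonneg _
    · have h1 : m2 ^ 4 ≤ m2 * m3 ^ 2 := by
        calc m2 ^ 4 = (m2 ^ 2) ^ 2 := by ring
          _ ≤ (m1 * m3) ^ 2 := pow_le_pow_left₀ (sq_nonneg _) c2 2
          _ = m1 ^ 2 * m3 ^ 2 := by ring
          _ ≤ m2 * m3 ^ 2 := mul_le_mul_of_nonneg_right c1 (sq_nonneg _)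
      have h2 : m2 * m2 ^ 3 ≤ m2 * m3 ^ 2 := by
        calc m2 * m2 ^ 3 = m2 ^ 4 := by ring
          _ ≤ _ := h1
      exact le_of_mul_le_mul_left h2 h
  -- third moment
  have h3 := moment_layer (x := x) (N := N) hf hp hy hx K (by omega)
    (fun n => (n : ℝ) ^ 3) (by simp)
  have h3' : m3 = (∑ k ∈ range K, ((((k + 1 : ℕ) : ℝ)) ^ 3 - (k : ℝ) ^ 3) * Tm x N (k + 2)) /
      Qn x N 1 ^ 2 := by
    rw [← h3, hm3, ← Finset.univ_product_univ, Finset.sum_product]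
  have hT : ∀ k : ℕ, 0 ≤ Tm x N (k + 2) := by
    intro k
    have h := tail_eq (x := x) (N := N) hf hp hy hx (K + k) k (by omega)
    have h1 : 0 ≤ (∑ c : Conf N, ∑ g : Conf N,
          st x 0 c * st x 1 g * if YY c g ≤ ((K + k : ℕ) : ℤ) then (1 : ℝ) else 0) -
        (∑ c : Conf N, ∑ g : Conf N,
          st x 0 c * st x 1 g * if YY c g ≤ (k : ℤ) then (1 : ℝ) else 0) := by
      rw [sub_nonneg]
      refine Finset.sum_le_sum fun c _ => Finset.sum_le_sum fun g _ => ?_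
      refine mul_le_mul_of_nonneg_left ?_ (mul_nonneg (hst0 c) (hst1 g))
      by_cases hk : YY c g ≤ (k : ℤ)
      · have hk' : YY c g ≤ ((K + k : ℕ) : ℤ) := hk.trans (by push_cast; omega)
        rw [if_pos hk, if_pos hk']
      · rw [if_neg hk]
        split_ifs <;> norm_num
    rw [h] at h1
    have h2 : 0 < Qn x N 1 ^ 2 := pow_pos hQ 2
    by_contra h4
    rw [not_le] at h4
    exact absurd h1 (not_le.2 (div_neg_of_neg_of_pos h4 h2))
  have h4 : m3 ≤ (3 / 2) * (∑ m ∈ Icc (-(N : ℤ) - 1) (N + 1),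
      (m : ℝ) ^ 2 * (Qn x N m ^ 2 - Qn x N (m - 1) * Qn x N (m + 1))) / Qn x N 1 ^ 2 := by
    rw [h3', sum_Tm x N hf]
    refine div_le_div_of_nonneg_right ?_ (by positivity)
    have h5 : ∑ k ∈ range K, ((((k + 1 : ℕ) : ℝ)) ^ 3 - (k : ℝ) ^ 3) * Tm x N (k + 2) ≤
        ∑ k ∈ range K, 3 * (((k : ℝ) + 2) ^ 2 * Tm x N (k + 2)) := by
      refine Finset.sum_le_sum fun k _ => ?_
      rw [← mul_assoc]
      refine mul_le_mul_of_nonneg_right ?_ (hT k)
      push_cast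
      have : (0 : ℝ) ≤ k := Nat.cast_nonneg k
      nlinarith
    rw [← Finset.mul_sum] at h5
    have h6 : 0 ≤ Qn x N 1 ^ 2 := sq_nonneg _
    have hKK : 2 * N + 10 = K := rfl
    linarith
  rw [hK2]
  exact hlyap.trans (pow_le_pow_left₀ hm3' h4 2)

end Pool.Agent.Helper92_Strip
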