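import Pool.Agent.Helper92_Strip.MomY

/-!
# EY1: mean of the maximum on the event that the first step is occupied
-/

namespace Pool.Agent.Helper92_Strip

open Finset Pool.Agent.Helper38_Strip

lemma ht_abs_le {N : ℕ} (t : ℕ) (c : Conf N) (m : ℕ) : |ht t c m| ≤ N := by
  unfold ht
  refine (Finset.abs_sum_le_sum_abs _ _).trans ?_
  have h : ∀ i ∈ (univ : Finset (Fin N)),
      |(if (i : ℕ) < m ∧ c i = true then sg t i else 0)| ≤ (1 : ℤ) := by
    intro i _
    unfold sg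
    split_ifs <;> norm_num
  refine (Finset.sum_le_sum h).trans ?_
  simp

lemma YY_nonneg {N : ℕ} (c g : Conf N) : 0 ≤ YY c g := by
  have h := le_mx (N := N) (fun m => ht 0 c m + ht 1 g m) (Nat.zero_le N)
  simpa [YY, ht_zero] using h

lemma YY_le {N : ℕ} (c g : Conf N) : YY c g ≤ 2 * N := by
  refine mx_le _ _ fun m _ => ?_
  have h1 := abs_le.1 (ht_abs_le 0 c m)
  have h2 := abs_le.1 (ht_abs_le 1 g m)
  omega

lemma layer (y : ℤ) (K : ℕ) (h0 : 0 ≤ y) (h1 : y ≤ K) :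
    (y : ℝ) = ∑ k ∈ range K, (1 - if y ≤ (k : ℤ) then (1 : ℝ) else 0) := by
  obtain ⟨n, rfl⟩ := Int.eq_ofNat_of_zero_le h0
  have h2 : ∀ k ∈ range K, (1 - if (n : ℤ) ≤ (k : ℤ) then (1 : ℝ) else 0) =
      if k < n then 1 else 0 := by
    intro k _
    by_cases h : n ≤ k
    · have h' : (n : ℤ) ≤ (k : ℤ) := by exact_mod_cast h
      simp [h', not_lt.2 h]
    · have h' : ¬ (n : ℤ) ≤ (k : ℤ) := by exact_mod_cast h
      simp [h', not_le.1 h]
  rw [Finset.sum_congr rfl h2, Finset.sum_ite, Finset.sum_const_zero, add_zero,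
    Finset.sum_const, nsmul_eq_mul, mul_one]
  have h3 : (range K).filter (fun k => k < n) = range n := by
    ext k
    simp only [Finset.mem_filter, Finset.mem_range]
    have : n ≤ K := by exact_mod_cast h1
    omega
  rw [h3, Finset.card_range]
  simp

section Q

variable {x : ℝ} {N : ℕ}

/-- the sum of the squares of the coefficients -/
noncomputable def S2 (x : ℝ) (N : ℕ) : ℝ := ∑ m ∈ Icc (-(N : ℤ) - 1) (N + 1), Qn x N m ^ 2

lemma Qn_zero_of (hf : FourStatement) {m : ℤ} (hm : (N : ℤ) + 1 < |m|) : Qn x N m = 0 :=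
  (hf x N).2.2.1 m hm

lemma Qn_neg (hf : FourStatement) (m : ℤ) : Qn x N (-m) = - Qn x N m := (hf x N).2.1 m

lemma Qn_at_zero (hf : FourStatement) : Qn x N 0 = 0 := by
  have h := (hf x N).2.1 0
  rw [neg_zero] at h
  linarith

lemma sum_shift_le (hf : FourStatement) (s : ℤ) (K : ℕ) :
    ∑ k ∈ range K, Qn x N ((k : ℤ) + s) ^ 2 ≤ S2 x N := by
  have h1 : ∑ k ∈ range K, Qn x N ((k : ℤ) + s) ^ 2 =
      ∑ m ∈ (range K).image (fun k : ℕ => (k : ℤ) + s), Qn x N m ^ 2 := by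
    rw [Finset.sum_image]
    intro a _ b _ h
    simpa using h
  rw [h1, S2]
  have h2 : ∑ m ∈ (range K).image (fun k : ℕ => (k : ℤ) + s), Qn x N m ^ 2 =
      ∑ m ∈ ((range K).image (fun k : ℕ => (k : ℤ) + s)).filter
        (fun m => m ∈ Icc (-(N : ℤ) - 1) (N + 1)), Qn x N m ^ 2 := by
    rw [Finset.sum_filter]
    refine Finset.sum_congr rfl fun m _ => ?_
    by_cases h : m ∈ Icc (-(N : ℤ) - 1) (N + 1)
    · rw [if_pos h]
    · rw [if_neg h, Qn_zero_of hf, zero_pow two_ne_zero]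
      rw [Finset.mem_Icc] at h
      by_contra h3
      have h4 := abs_le.1 (not_lt.1 h3)
      exact h ⟨by omega, by omega⟩
  rw [h2]
  refine Finset.sum_le_sum_of_subset_of_nonneg ?_ fun _ _ _ => sq_nonneg _
  intro m hm
  exact (Finset.mem_filter.1 hm).2

lemma sum_prod_le (hf : FourStatement) (s r : ℤ) (K : ℕ) :
    |∑ k ∈ range K, Qn x N ((k : ℤ) + s) * Qn x N ((k : ℤ) + r)| ≤ S2 x N := by
  refine (Finset.abs_sum_le_sum_abs _ _).trans ?_
  have h : ∀ k ∈ range K, |Qn x N ((k : ℤ) + s) * Qn x N ((k : ℤ) + r)| ≤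
      Qn x N ((k : ℤ) + s) ^ 2 / 2 + Qn x N ((k : ℤ) + r) ^ 2 / 2 := by
    intro k _
    rw [abs_mul]
    nlinarith [sq_abs (Qn x N ((k : ℤ) + s)), sq_abs (Qn x N ((k : ℤ) + r)),
      sq_nonneg (|Qn x N ((k : ℤ) + s)| - |Qn x N ((k : ℤ) + r)|)]
  refine (Finset.sum_le_sum h).trans ?_
  rw [Finset.sum_add_distrib, ← Finset.sum_div, ← Finset.sum_div]
  have h1 := sum_shift_le (x := x) (N := N) hf s K
  have h2 := sum_shift_le (x := x) (N := N) hf r K
  linarith

/-- the terms of the layer formula -/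
noncomputable def R (x : ℝ) (N : ℕ) (a b d k : ℕ) : ℝ :=
  Qn x N (k + (1 + a)) * Qn x N (k + (2 + b - d)) - Qn x N (k + (3 + a - d)) * Qn x N (k + b)

lemma R_sum_le (hf : FourStatement) (a b d K : ℕ) :
    |∑ k ∈ range K, R x N a b d k| ≤ 2 * S2 x N := by
  unfold R
  rw [Finset.sum_sub_distrib]
  have h1 := sum_prod_le (x := x) (N := N) hf (1 + a) (2 + b - d) K
  have h2 := sum_prod_le (x := x) (N := N) hf (3 + a - d) b K
  refine (abs_sub _ _).trans ?_
  linarith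

lemma summ (hf : FourStatement) (s r : ℤ) :
    Summable (fun m : ℤ => Qn x N (m + s) * Qn x N (m + r)) := by
  refine summable_of_ne_finset_zero (s := Icc (-(N : ℤ) - 1 - s) (N + 1 - s)) fun m hm => ?_
  rw [Qn_zero_of hf, zero_mul]
  rw [Finset.mem_Icc] at hm
  by_contra h3
  have h4 := abs_le.1 (not_lt.1 h3)
  exact hm ⟨by omega, by omega⟩

lemma summN (hf : FourStatement) (s r : ℤ) :
    Summable (fun m : ℕ => Qn x N (m + s) * Qn x N (m + r)) := by
  refine summable_of_ne_finset_zero (s := range (N + 2 + s.natAbs)) fun m hm => ?_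
  rw [Qn_zero_of hf, zero_mul]
  rw [Finset.mem_range] at hm
  by_contra h3
  have h4 := abs_le.1 (not_lt.1 h3)
  omega

lemma four_tsum (hf : FourStatement) (j : ℤ) :
    ∑ m ∈ Icc (-(N : ℤ) - 1) (N + 1), Qn x N m * Qn x N (m + j) =
      ∑' m : ℤ, Qn x N m * Qn x N (m + j) := by
  symm
  refine tsum_eq_sum fun m hm => ?_
  rw [Qn_zero_of hf, zero_mul]
  rw [Finset.mem_Icc] at hm
  by_contra h3
  have h4 := abs_le.1 (not_lt.1 h3)
  exact hm ⟨by omega, by omega⟩

lemma range_tsum (hf : FourStatement) (s r : ℕ) (K : ℕ) (hK : N + 2 ≤ K) :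
    ∑ k ∈ range K, Qn x N ((k : ℤ) + s) * Qn x N ((k : ℤ) + r) =
      ∑' k : ℕ, Qn x N ((k : ℤ) + s) * Qn x N ((k : ℤ) + r) := by
  symm
  refine tsum_eq_sum fun m hm => ?_
  rw [Qn_zero_of hf, zero_mul]
  rw [Finset.mem_range] at hm
  by_contra h3
  have h4 := abs_le.1 (not_lt.1 h3)
  omega

lemma split_int (hf : FourStatement) (j : ℤ) :
    ∑' m : ℤ, Qn x N m * Qn x N (m + j) =
      (∑' k : ℕ, Qn x N k * Qn x N (k + j)) +
        ∑' k : ℕ, Qn x N (k + 1) * Qn x N (k + (1 - j)) := by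
  have hs : Summable (fun m : ℤ => Qn x N m * Qn x N (m + j)) := by
    have := summ (x := x) (N := N) hf 0 j
    simpa using this
  have h := (tsum_of_nat_of_neg_add_one (f := fun m : ℤ => Qn x N m * Qn x N (m + j))
    (by have := summN (x := x) (N := N) hf 0 j; simpa using this)
    (by
      have := summN (x := x) (N := N) hf 1 (1 - j)
      refine this.congr fun k => ?_
      have e1 : (-((k : ℤ) + 1)) + j = -((k : ℤ) + (1 - j)) := by ring
      rw [e1, Qn_neg hf, Qn_neg hf]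
      ring))
  rw [h]
  congr 1
  refine tsum_congr fun k => ?_
  have e1 : (-((k : ℤ) + 1)) + j = -((k : ℤ) + (1 - j)) := by ring
  rw [e1, Qn_neg hf, Qn_neg hf]
  ring

lemma half_one (hf : FourStatement) :
    2 * (∑' k : ℕ, Qn x N (k + 1) * Qn x N (k + 2)) =
      ∑' m : ℤ, Qn x N m * Qn x N (m + 1) := by
  rw [split_int hf]
  have h0 := Qn_at_zero (x := x) (N := N) hf
  have e1 : ∑' k : ℕ, Qn x N k * Qn x N (k + 1) =
      ∑' k : ℕ, Qn x N (k + 1) * Qn x N (k + 2) := by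
    have hs : Summable (fun k : ℕ => Qn x N k * Qn x N (k + 1)) := by
      have := summN (x := x) (N := N) hf 0 1
      simpa using this
    rw [hs.tsum_eq_zero_add]
    simp only [Nat.cast_zero, h0, zero_mul, zero_add]
    refine tsum_congr fun k => ?_
    push_cast
    rw [show (k : ℤ) + 1 + 1 = k + 2 by ring]
  have e2 : ∑' k : ℕ, Qn x N (k + 1) * Qn x N (k + (1 - 1)) =
      ∑' k : ℕ, Qn x N k * Qn x N (k + 1) := by
    refine tsum_congr fun k => ?_
    rw [sub_self, add_zero, mul_comm]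
  rw [e2, e1]
  ring

lemma half_three (hf : FourStatement) :
    2 * (∑' k : ℕ, Qn x N (k + 3) * Qn x N k) =
      (∑' m : ℤ, Qn x N m * Qn x N (m + 3)) + 2 * (Qn x N 1 * Qn x N 2) := by
  rw [split_int hf]
  have h0 := Qn_at_zero (x := x) (N := N) hf
  have e0 : ∑' k : ℕ, Qn x N k * Qn x N (k + 3) = ∑' k : ℕ, Qn x N (k + 3) * Qn x N k :=
    tsum_congr fun k => mul_comm _ _
  have hs : Summable (fun k : ℕ => Qn x N (k + 3) * Qn x N k) := by
    have := summN (x := x) (N := N) hf 3 0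
    simpa using this
  have e1 : ∑' k : ℕ, Qn x N (k + 3) * Qn x N k =
      ∑' k : ℕ, Qn x N (k + 4) * Qn x N (k + 1) := by
    rw [hs.tsum_eq_zero_add]
    simp only [Nat.cast_zero, h0, mul_zero, zero_add]
    refine tsum_congr fun k => ?_
    push_cast
    rw [show (k : ℤ) + 1 + 3 = k + 4 by ring]
  have hs2 : Summable (fun k : ℕ => Qn x N (k + 1) * Qn x N (k + (1 - 3))) :=
    summN (x := x) (N := N) hf 1 (1 - 3)
  have e2 : ∑' k : ℕ, Qn x N (k + 1) * Qn x N (k + (1 - 3)) =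
      -(2 * (Qn x N 1 * Qn x N 2)) + ∑' k : ℕ, Qn x N (k + 4) * Qn x N (k + 1) := by
    rw [← hs2.sum_add_tsum_nat_add 3]
    simp only [Finset.sum_range_succ, Finset.sum_range_zero, zero_add]
    have f1 : Qn x N (((0 : ℕ) : ℤ) + (1 - 3)) = - Qn x N 2 := by
      rw [← Qn_neg hf]; norm_num
    have f2 : Qn x N (((1 : ℕ) : ℤ) + (1 - 3)) = - Qn x N 1 := by
      rw [← Qn_neg hf]; norm_num
    have f3 : Qn x N (((2 : ℕ) : ℤ) + (1 - 3)) = 0 := by
      rw [← h0]; norm_num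
    rw [f1, f2, f3]
    have f4 : ∑' k : ℕ, Qn x N (((k + 3 : ℕ) : ℤ) + 1) * Qn x N (((k + 3 : ℕ) : ℤ) + (1 - 3)) =
        ∑' k : ℕ, Qn x N (k + 4) * Qn x N (k + 1) := by
      refine tsum_congr fun k => ?_
      push_cast
      rw [show (k : ℤ) + 3 + 1 = k + 4 by ring, show (k : ℤ) + 3 + -2 = k + 1 by ring]
    rw [f4]
    have g1 : Qn x N (((0 : ℕ) : ℤ) + 1) = Qn x N 1 := by norm_num
    have g2 : Qn x N (((1 : ℕ) : ℤ) + 1) = Qn x N 2 := by norm_num
    rw [g1, g2]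
    ring
  rw [e0, e2, ← e1]
  ring

/-- the main term -/
lemma R_main (hf : FourStatement) (K : ℕ) (hK : N + 2 ≤ K) :
    ∑ k ∈ range K, R x N 0 0 0 k =
      (1 / (2 * Real.pi)) * (∫ θ in (-Real.pi)..Real.pi,
        8 * Real.sin θ ^ 4 * Real.cos θ * (1 + x ^ 2 + 2 * x * Real.cos θ) ^ (2 * N)) -
        Qn x N 1 * Qn x N 2 := by
  have h1 : ∑ k ∈ range K, R x N 0 0 0 k =
      (∑' k : ℕ, Qn x N (k + 1) * Qn x N (k + 2)) - ∑' k : ℕ, Qn x N (k + 3) * Qn x N k := by
    unfold R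
    rw [Finset.sum_sub_distrib]
    have e1 := range_tsum (x := x) (N := N) hf 1 2 K hK
    have e2 := range_tsum (x := x) (N := N) hf 3 0 K hK
    simp only [Nat.cast_zero, add_zero, sub_zero, Nat.cast_one, Nat.cast_ofNat] at e1 e2 ⊢
    rw [e1, e2]
  have h2 := half_one (x := x) (N := N) hf
  have h3 := half_three (x := x) (N := N) hf
  have h4 := (hf x N).2.2.2 1
  have h5 := (hf x N).2.2.2 3
  rw [four_tsum hf] at h4 h5
  have h6 : (∫ θ in (-Real.pi)..Real.pi,
        8 * Real.sin θ ^ 4 * Real.cos θ * (1 + x ^ 2 + 2 * x * Real.cos θ) ^ (2 * N)) =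
      (1 / 2) * ((∫ θ in (-Real.pi)..Real.pi,
        4 * Real.sin θ ^ 2 * Real.cos (((1 : ℤ) : ℝ) * θ) *
          (1 + x ^ 2 + 2 * x * Real.cos θ) ^ (2 * N)) -
        ∫ θ in (-Real.pi)..Real.pi,
        4 * Real.sin θ ^ 2 * Real.cos (((3 : ℤ) : ℝ) * θ) *
          (1 + x ^ 2 + 2 * x * Real.cos θ) ^ (2 * N)) := by
    rw [← intervalIntegral.integral_sub, ← intervalIntegral.integral_const_mul]
    · refine intervalIntegral.integral_congr fun θ _ => ?_
      have hc : Real.cos (((3 : ℤ) : ℝ) * θ) = 4 * Real.cos θ ^ 3 - 3 * Real.cos θ := by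
        push_cast
        exact Real.cos_three_mul θ
      simp only [hc, Int.cast_one, one_mul]
      have hs : Real.sin θ ^ 4 = Real.sin θ ^ 2 * (1 - Real.cos θ ^ 2) := by
        rw [← Real.sin_sq]; ring
      rw [hs]
      ring
    · exact Continuous.intervalIntegrable (by fun_prop) _ _
    · exact Continuous.intervalIntegrable (by fun_prop) _ _
  rw [h1, h6]
  linear_combination (1 / 2) * h2 - (1 / 2) * h3 + (1 / 2) * h4 - (1 / 2) * h5

end Q

/-- EY1 -/
theorem ey1 (hy : YLaw1Statement) (hf : FourStatement) (hp : PairStatement) : EY1Statement := by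
  refine ⟨14, fun x hx hx1 N => ?_⟩
  set K : ℕ := 2 * N + 10 with hK
  have hQ : 0 < Qn x (N + 1) 1 := (hp x hx (N + 1) 0).2
  -- the layer formula
  have h1 : (sE x 0 fun c : Conf (N + 1) => Psi x 0 c * if c 0 = true then 1 else 0) =
      ∑ k ∈ range K, ((∑ c : Conf (N + 1), ∑ g : Conf (N + 1),
        st x 0 c * st x 1 g * if c 0 = true ∧ YY c g ≤ (K : ℕ) then 1 else 0) -
        ∑ c : Conf (N + 1), ∑ g : Conf (N + 1),
        st x 0 c * st x 1 g * if c 0 = true ∧ YY c g ≤ (k : ℕ) then 1 else 0) := by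
    have e1 : ∀ k ∈ range K, ((∑ c : Conf (N + 1), ∑ g : Conf (N + 1),
        st x 0 c * st x 1 g * if c 0 = true ∧ YY c g ≤ (K : ℕ) then 1 else 0) -
        ∑ c : Conf (N + 1), ∑ g : Conf (N + 1),
        st x 0 c * st x 1 g * if c 0 = true ∧ YY c g ≤ (k : ℕ) then 1 else 0) =
        ∑ c : Conf (N + 1), ∑ g : Conf (N + 1), st x 0 c * st x 1 g *
          ((if c 0 = true then 1 else 0) * (1 - if YY c g ≤ (k : ℤ) then 1 else 0)) := by
      intro k _
      rw [← Finset.sum_sub_distrib]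
      refine Finset.sum_congr rfl fun c _ => ?_
      rw [← Finset.sum_sub_distrib]
      refine Finset.sum_congr rfl fun g _ => ?_
      have hle : YY c g ≤ (K : ℕ) := (YY_le c g).trans (by rw [hK]; push_cast; omega)
      by_cases hc : c 0 = true
      · by_cases hk : YY c g ≤ (k : ℤ)
        · simp [hc, hk, hle]
        · simp [hc, hk, hle]
      · simp [hc]
    rw [Finset.sum_congr rfl e1, Finset.sum_comm]
    unfold sE
    refine Finset.sum_congr rfl fun c _ => ?_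
    rw [Finset.sum_comm]
    unfold Psi
    beta_reduce
    rw [Finset.sum_mul, Finset.mul_sum]
    refine Finset.sum_congr rfl fun g _ => ?_
    rw [← Finset.mul_sum, ← Finset.mul_sum]
    have e2 : (mx (N + 1) fun m => ht 0 c m + ht (0 + 1) g m) = YY c g := rfl
    rw [e2, ← layer (YY c g) K (YY_nonneg c g) ((YY_le c g).trans (by rw [hK]; push_cast; omega))]
    rw [zero_add]
    ring
  have h2 : ∀ k ∈ range K, ((∑ c : Conf (N + 1), ∑ g : Conf (N + 1),
        st x 0 c * st x 1 g * if c 0 = true ∧ YY c g ≤ (K : ℕ) then 1 else 0) -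
        ∑ c : Conf (N + 1), ∑ g : Conf (N + 1),
        st x 0 c * st x 1 g * if c 0 = true ∧ YY c g ≤ (k : ℕ) then 1 else 0) =
      (∑ a ∈ range 2, ∑ b ∈ range 2, ∑ d ∈ range 2, x ^ (a + b + 1 + d) * R x N a b d k) /
        Qn x (N + 1) 1 ^ 2 := by
    intro k _
    rw [hy x hx N K, hy x hx N k, ← sub_div]
    congr 1
    rw [← Finset.sum_sub_distrib]
    refine Finset.sum_congr rfl fun a ha => ?_
    rw [← Finset.sum_sub_distrib]
    refine Finset.sum_congr rfl fun b hb => ?_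
    rw [← Finset.sum_sub_distrib]
    refine Finset.sum_congr rfl fun d hd => ?_
    rw [Finset.mem_range] at ha hb hd
    rw [← mul_sub]
    congr 1
    unfold Pf R
    have z1 : Qn x N ((K : ℤ) + 3 + a - 2) = 0 := by
      refine Qn_zero_of hf ?_
      rw [hK]; push_cast
      refine lt_of_lt_of_le ?_ (le_abs_self _)
      omega
    have z2 : Qn x N ((K : ℤ) + 3 + a - d) = 0 := by
      refine Qn_zero_of hf ?_
      rw [hK]; push_cast
      refine lt_of_lt_of_le ?_ (le_abs_self _)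
      omega
    rw [z1, z2]
    have w1 : ((K : ℤ) + 3 + a - (K + 2 + b)) = (k + 3 + a - (k + 2 + b)) := by ring
    have w2 : (k : ℤ) + 3 + a - 2 = k + (1 + a) := by ring
    have w3 : (k : ℤ) + 2 + b - d = k + (2 + b - d) := by ring
    have w4 : (k : ℤ) + 3 + a - d = k + (3 + a - d) := by ring
    have w5 : (k : ℤ) + 2 + b - 2 = k + b := by ring
    rw [w1, w2, w3, w4, w5]
    ring
  rw [h1, Finset.sum_congr rfl h2, ← Finset.sum_div]
  have h3 : ∑ k ∈ range K, ∑ a ∈ range 2, ∑ b ∈ range 2, ∑ d ∈ range 2,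
      x ^ (a + b + 1 + d) * R x N a b d k =
      ∑ a ∈ range 2, ∑ b ∈ range 2, ∑ d ∈ range 2,
        x ^ (a + b + 1 + d) * ∑ k ∈ range K, R x N a b d k := by
    rw [Finset.sum_comm]
    refine Finset.sum_congr rfl fun a _ => ?_
    rw [Finset.sum_comm]
    refine Finset.sum_congr rfl fun b _ => ?_
    rw [Finset.sum_comm]
    refine Finset.sum_congr rfl fun d _ => ?_
    rw [Finset.mul_sum]
  have hS : 0 ≤ S2 x N := Finset.sum_nonneg fun _ _ => sq_nonneg _
  have hb : ∀ a b d e : ℕ, |x ^ (e + 2) * ∑ k ∈ range K, R x N a b d k| ≤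
      x ^ 2 * (2 * S2 x N) := by
    intro a b d e
    rw [abs_mul, abs_of_pos (pow_pos hx _)]
    refine mul_le_mul ?_ (R_sum_le hf a b d K) (abs_nonneg _) (by positivity)
    exact pow_le_pow_of_le_one hx.le hx1.le (by omega)
  rw [h3]
  simp only [Finset.sum_range_succ, Finset.sum_range_zero, zero_add]
  rw [R_main hf K (by omega)]
  have hm : ∀ A B C : ℝ, (A - x * B) / Qn x (N + 1) 1 ^ 2 = C / Qn x (N + 1) 1 ^ 2 →
    A / Qn x (N + 1) 1 ^ 2 - x * B / Qn x (N + 1) 1 ^ 2 = C / Qn x (N + 1) 1 ^ 2 := by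
    intro A B C h
    rw [← h, sub_div]
  rw [← sub_div, abs_div, abs_of_pos (pow_pos hQ 2)]
  refine div_le_div_of_nonneg_right ?_ (by positivity)
  have b1 := abs_le.1 (hb 0 0 1 0)
  have b2 := abs_le.1 (hb 0 1 0 0)
  have b3 := abs_le.1 (hb 0 1 1 1)
  have b4 := abs_le.1 (hb 1 0 0 0)
  have b5 := abs_le.1 (hb 1 0 1 1)
  have b6 := abs_le.1 (hb 1 1 0 1)
  have b7 := abs_le.1 (hb 1 1 1 2)
  have hSd : S2 x N = ∑ m ∈ Icc (-(N : ℤ) - 1) (N + 1), Qn x N m ^ 2 := rfl
  rw [← hSd]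
  norm_num at b1 b2 b3 b4 b5 b6 b7 ⊢
  rw [abs_le]
  constructor <;> nlinarith
end Pool.Agent.Helper92_Strip
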