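import Pool.Agent.Helper38_Strip.LimD

/-!
# LIMX, LIMP, LIMI, LIMQ, LIMK3: the limits of the mesh
-/

namespace Pool.Agent.Helper92_Strip

open Finset MeasureTheory Filter Topology Pool.Agent.Helper38_Strip

lemma slope_exp : Tendsto (fun u : ℝ => (1 - Real.exp (-u)) / u) (𝓝[≠] 0) (𝓝 1) := by
  have h : HasDerivAt (fun u : ℝ => 1 - Real.exp (-u)) 1 0 := by
    have h1 : HasDerivAt (fun u : ℝ => Real.exp (-u)) (Real.exp (-0) * (-1)) 0 :=
      (hasDerivAt_neg (0 : ℝ)).exp
    have h2 := h1.const_sub 1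
    simpa using h2
  have h2 := hasDerivAt_iff_tendsto_slope.1 h
  refine h2.congr fun u => ?_
  rw [slope_def_field]
  simp

/-- LIMX -/
theorem limX : LimXStatement := by
  intro w hw
  have hdel : Tendsto (fun N : ℕ => (del w N) ^ 2) atTop (𝓝 0) := by
    have h1 : Tendsto (fun N : ℕ => √2 * w / (N : ℝ)) atTop (𝓝 0) :=
      tendsto_const_div_atTop_nhds_zero_nat _
    have h2 := h1.pow 2
    simpa [del] using h2
  have hdpos : ∀ N : ℕ, 1 ≤ N → 0 < (del w N) ^ 2 := by
    intro N hN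
    unfold del
    have : (0 : ℝ) < N := by exact_mod_cast hN
    positivity
  have hdel' : Tendsto (fun N : ℕ => (del w N) ^ 2) atTop (𝓝[≠] 0) := by
    refine tendsto_nhdsWithin_iff.2 ⟨hdel, ?_⟩
    filter_upwards [eventually_ge_atTop 1] with N hN
    exact (hdpos N hN).ne'
  have hs := slope_exp.comp hdel'
  have hNp : Tendsto (fun N : ℕ => (N : ℝ) ^ 2 * pN w N) atTop (𝓝 (2 * w ^ 2)) := by
    have h1 := hs.const_mul (2 * w ^ 2)
    rw [mul_one] at h1
    refine h1.congr' ?_
    filter_upwards [eventually_ge_atTop 1] with N hN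
    have hN' : (0 : ℝ) < N := by exact_mod_cast hN
    simp only [Function.comp, pN]
    have h2 : (del w N) ^ 2 = 2 * w ^ 2 / (N : ℝ) ^ 2 := by
      unfold del
      rw [div_pow, mul_pow, Real.sq_sqrt (by norm_num)]
    rw [show -(del w N) ^ 2 = -((del w N) ^ 2) from rfl]
    set e := Real.exp (-((del w N) ^ 2)) with he
    rw [h2]
    field_simp
  have hp0 : ∀ N : ℕ, 1 ≤ N → 0 < pN w N := by
    intro N hN
    unfold pN
    have := hdpos N hN
    have h3 : Real.exp (-(del w N) ^ 2) < 1 := by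
      rw [Real.exp_lt_one_iff]
      linarith
    linarith
  refine ⟨?_, ?_⟩
  · have h1 : Tendsto (fun N : ℕ => √((N : ℝ) ^ 2 * pN w N)) atTop (𝓝 √(2 * w ^ 2)) :=
      (Real.continuous_sqrt.tendsto _).comp hNp
    have h2 : √(2 * w ^ 2) = √2 * w := by
      rw [Real.sqrt_mul (by norm_num), Real.sqrt_sq hw.le]
    rw [h2] at h1
    refine h1.congr fun N => ?_
    rw [Real.sqrt_mul (by positivity), Real.sqrt_sq (Nat.cast_nonneg N)]
    rfl
  · have hp : Tendsto (fun N : ℕ => pN w N) atTop (𝓝 0) := by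
      have h1 : Tendsto (fun N : ℕ => 1 - Real.exp (-(del w N) ^ 2)) atTop
          (𝓝 (1 - Real.exp (-0))) := by
        refine Tendsto.sub tendsto_const_nhds ?_
        exact (Real.continuous_exp.tendsto _).comp hdel.neg
      simpa [pN] using h1
    filter_upwards [eventually_ge_atTop 1, hp.eventually (gt_mem_nhds (by norm_num : (0 : ℝ) < 1 / 2))]
      with N hN h1
    have h2 := hp0 N hN
    have h3 : xN w N ^ 2 = pN w N := Real.sq_sqrt h2.le
    exact ⟨Real.sqrt_pos.2 h2, by rw [h3]; exact h1.le, h3⟩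

lemma xN_tendsto (w : ℝ) (hw : 0 < w) : Tendsto (fun N : ℕ => xN w N) atTop (𝓝 0) := by
  have h1 := (limX w hw).1
  have h2 : Tendsto (fun N : ℕ => ((N : ℝ) * xN w N) * ((N : ℝ)⁻¹)) atTop (𝓝 (√2 * w * 0)) :=
    h1.mul tendsto_inv_atTop_nhds_zero_nat
  rw [mul_zero] at h2
  refine h2.congr' ?_
  filter_upwards [eventually_ge_atTop 1] with N hN
  have hN' : (N : ℝ) ≠ 0 := by
    have : N ≠ 0 := by omega
    exact_mod_cast this
  field_simp

lemma log_bound {y : ℝ} (hy : |y| ≤ 1 / 2) : |Real.log (1 + y) - y| ≤ 2 * y ^ 2 := by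
  have h1 : 0 < 1 + y := by have := abs_le.1 hy; linarith
  have h2 := Real.abs_log_sub_add_sum_range_le (x := -y) (by rw [abs_neg]; linarith) 1
  simp only [Finset.sum_range_one, zero_add, pow_one, Nat.cast_zero, div_one, abs_neg,
    sub_neg_eq_add] at h2
  rw [show (-y + Real.log (1 + y)) = Real.log (1 + y) - y by ring] at h2
  refine h2.trans ?_
  rw [show (1 + 1 : ℕ) = 2 from rfl, sq_abs, div_le_iff₀ (by linarith)]
  nlinarith [sq_nonneg y]

/-- LIMP -/
theorem limP : LimPStatement := by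
  intro w hw k a hk
  have hx := xN_tendsto w hw
  have hNx := (limX w hw).1
  have hkx : Tendsto (fun N : ℕ => (k N : ℝ) * xN w N) atTop (𝓝 (√2 * w * a)) := by
    have h1 := hNx.mul hk
    refine h1.congr' ?_
    filter_upwards [eventually_ge_atTop 1] with N hN
    have hN' : (N : ℝ) ≠ 0 := by
      have : N ≠ 0 := by omega
      exact_mod_cast this
    field_simp
  have hkx2 : Tendsto (fun N : ℕ => (k N : ℝ) * xN w N ^ 2) atTop (𝓝 0) := by
    have h1 := hkx.mul hx
    rw [mul_zero] at h1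
    refine h1.congr fun N => ?_
    ring
  -- error
  set err : ℕ → ℝ := fun N => 19 * ((k N : ℝ) * xN w N ^ 2) +
    2 * |(k N : ℝ) * xN w N - √2 * w * a| with herr
  have herr0 : Tendsto err atTop (𝓝 0) := by
    have h1 : Tendsto (fun N : ℕ => |(k N : ℝ) * xN w N - √2 * w * a|) atTop (𝓝 |0|) := by
      have h2 := hkx.sub_const (√2 * w * a)
      rw [sub_self] at h2
      exact h2.abs
    rw [abs_zero] at h1
    have h2 := (hkx2.const_mul 19).add (h1.const_mul 2)
    simpa using h2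
  have hlog : ∀ᶠ N : ℕ in atTop, ∀ θ : ℝ, 0 < 1 + xN w N ^ 2 + 2 * xN w N * Real.cos θ ∧
      |(k N : ℝ) * Real.log (1 + xN w N ^ 2 + 2 * xN w N * Real.cos θ) -
        2 * √2 * w * a * Real.cos θ| ≤ err N := by
    filter_upwards [hx.eventually (gt_mem_nhds (by norm_num : (0 : ℝ) < 1 / 6)),
      (limX w hw).2] with N h1 h2 θ
    have hx0 : 0 < xN w N := h2.1
    set x := xN w N with hxdef
    set y := x ^ 2 + 2 * x * Real.cos θ with hy
    have hcos := Real.abs_cos_le_one θ
    have hy1 : |y| ≤ 3 * x := by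
      refine (abs_add_le _ _).trans ?_
      rw [abs_mul, abs_of_pos (by positivity : 0 < x ^ 2), abs_of_pos (by positivity : 0 < 2 * x)]
      nlinarith
    have hy2 : |y| ≤ 1 / 2 := hy1.trans (by linarith)
    have h3 := log_bound hy2
    have h4 : y ^ 2 ≤ 9 * x ^ 2 := by
      rw [← sq_abs]
      nlinarith [abs_nonneg y]
    have h5 : 1 + x ^ 2 + 2 * x * Real.cos θ = 1 + y := by rw [hy]; ring
    rw [h5]
    have h6 := abs_le.1 hy2
    refine ⟨by linarith, ?_⟩
    have hk0 : (0 : ℝ) ≤ k N := Nat.cast_nonneg _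
    have e : (k N : ℝ) * Real.log (1 + y) - 2 * √2 * w * a * Real.cos θ =
        k N * (Real.log (1 + y) - y) + k N * x ^ 2 +
          2 * (k N * x - √2 * w * a) * Real.cos θ := by rw [hy]; ring
    rw [e]
    refine (abs_add_le _ _).trans ?_
    have b1 : |(k N : ℝ) * (Real.log (1 + y) - y) + k N * x ^ 2| ≤ 19 * (k N * x ^ 2) := by
      refine (abs_add_le _ _).trans ?_
      rw [abs_mul, abs_of_nonneg hk0, abs_of_nonneg (by positivity : 0 ≤ (k N : ℝ) * x ^ 2)]
      have : (k N : ℝ) * |Real.log (1 + y) - y| ≤ k N * (18 * x ^ 2) :=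
        mul_le_mul_of_nonneg_left (h3.trans (by linarith)) hk0
      linarith
    have b2 : |2 * ((k N : ℝ) * x - √2 * w * a) * Real.cos θ| ≤
        2 * |(k N : ℝ) * x - √2 * w * a| := by
      rw [abs_mul, abs_mul, abs_two]
      have := abs_nonneg ((k N : ℝ) * x - √2 * w * a)
      nlinarith
    linarith
  rw [Metric.tendstoUniformlyOn_iff]
  intro ε hε
  set M := Real.exp (|2 * √2 * w * a|) with hM
  have hMpos : 0 < M := Real.exp_pos _
  have hsmall : ∀ᶠ N : ℕ in atTop, err N < min 1 (ε / (2 * M)) := by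
    refine herr0.eventually (gt_mem_nhds ?_)
    exact lt_min one_pos (by positivity)
  filter_upwards [hlog, hsmall] with N h1 h2 θ _
  obtain ⟨h3, h4⟩ := h1 θ
  have h5 : (1 + xN w N ^ 2 + 2 * xN w N * Real.cos θ) ^ (k N) =
      Real.exp ((k N : ℝ) * Real.log (1 + xN w N ^ 2 + 2 * xN w N * Real.cos θ)) := by
    rw [Real.exp_nat_mul, Real.exp_log h3]
  rw [h5, Real.dist_eq]
  set u := (k N : ℝ) * Real.log (1 + xN w N ^ 2 + 2 * xN w N * Real.cos θ) with hu
  set v := 2 * √2 * w * a * Real.cos θ with hv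
  have h6 : Real.exp v - Real.exp u = Real.exp v * -(Real.exp (u - v) - 1) := by
    rw [Real.exp_sub]
    field_simp
    ring
  rw [h6, abs_mul, abs_neg, Real.abs_exp]
  have h7 : |u - v| ≤ 1 := h4.trans (h2.le.trans (min_le_left _ _))
  have h8 := Real.abs_exp_sub_one_le h7
  have h9 : Real.exp v ≤ M := by
    rw [hM]
    refine Real.exp_le_exp.2 ?_
    refine (le_abs_self _).trans ?_
    rw [hv, abs_mul]
    exact mul_le_of_le_one_right (abs_nonneg _) (Real.abs_cos_le_one θ)
  have h10 : |u - v| < ε / (2 * M) := lt_of_le_of_lt h4 (h2.trans_le (min_le_right _ _))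
  calc Real.exp v * |Real.exp (u - v) - 1| ≤ M * (2 * |u - v|) :=
        mul_le_mul h9 h8 (abs_nonneg _) hMpos.le
    _ < M * (2 * (ε / (2 * M))) := by
        refine mul_lt_mul_of_pos_left ?_ hMpos
        linarith
    _ = ε := by field_simp

/-- LIMI -/
theorem limI : LimIStatement := by
  intro w hw k a hk f hf
  have hP := limP w hw k a hk
  unfold bb
  refine Tendsto.const_mul _ ?_
  have hle : -Real.pi ≤ Real.pi := by linarith [Real.pi_pos]
  set M := Real.exp (|2 * √2 * w * a|) with hM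
  refine intervalIntegral.tendsto_integral_filter_of_dominated_convergence
    (fun θ => |f θ| * (M + 1)) ?_ ?_ ?_ ?_
  · filter_upwards with N
    exact (by fun_prop : Continuous fun θ =>
      f θ * (1 + xN w N ^ 2 + 2 * xN w N * Real.cos θ) ^ (k N)).aestronglyMeasurable
  · have h1 := Metric.tendstoUniformlyOn_iff.1 hP 1 one_pos
    filter_upwards [h1] with N h2
    filter_upwards with θ hθ
    rw [Set.uIoc_of_le hle] at hθ
    have h3 := h2 θ ⟨hθ.1.le, hθ.2⟩
    rw [Real.norm_eq_abs, abs_mul]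
    refine mul_le_mul_of_nonneg_left ?_ (abs_nonneg _)
    rw [Real.dist_eq] at h3
    have h4 : Real.exp (2 * √2 * w * a * Real.cos θ) ≤ M := by
      rw [hM]
      refine Real.exp_le_exp.2 ?_
      refine (le_abs_self _).trans ?_
      rw [abs_mul]
      exact mul_le_of_le_one_right (abs_nonneg _) (Real.abs_cos_le_one θ)
    have h5 : |(1 + xN w N ^ 2 + 2 * xN w N * Real.cos θ) ^ (k N)| ≤
        |Real.exp (2 * √2 * w * a * Real.cos θ)| +
          |Real.exp (2 * √2 * w * a * Real.cos θ) -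
            (1 + xN w N ^ 2 + 2 * xN w N * Real.cos θ) ^ (k N)| := by
      have := abs_sub_abs_le_abs_sub ((1 + xN w N ^ 2 + 2 * xN w N * Real.cos θ) ^ (k N))
        (Real.exp (2 * √2 * w * a * Real.cos θ))
      rw [abs_sub_comm] at this
      linarith
    rw [Real.abs_exp] at h5
    linarith
  · exact (by fun_prop : Continuous fun θ => |f θ| * (M + 1)).intervalIntegrable _ _
  · filter_upwards with θ hθ
    rw [Set.uIoc_of_le hle] at hθ
    exact (hP.tendsto_at (x := θ) ⟨hθ.1.le, hθ.2⟩).const_mul _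

/-- LIMQ -/
theorem limQ (hf : FourStatement) : LimQStatement := by
  intro w hw k hk
  constructor
  · have h := limI w hw k 1 hk (fun θ => 2 * Real.sin θ ^ 2) (by fun_prop)
    rw [mul_one] at h
    unfold q1
    refine h.congr fun N => ?_
    rw [(hf (xN w N) (k N)).1 1]
    congr 1
    refine intervalIntegral.integral_congr fun θ _ => ?_
    simp only [Int.cast_one, one_mul]
    ring
  · have h := limI w hw k 1 hk (fun θ => 4 * Real.sin θ ^ 2 * Real.cos θ) (by fun_prop)
    rw [mul_one] at h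
    unfold q2
    refine h.congr fun N => ?_
    rw [(hf (xN w N) (k N)).1 2]
    congr 1
    refine intervalIntegral.integral_congr fun θ _ => ?_
    have hc : Real.sin (((2 : ℤ) : ℝ) * θ) = 2 * Real.sin θ * Real.cos θ := by
      push_cast
      exact Real.sin_two_mul θ
    simp only [hc]
    ring

/-- LIMK3; positivity of `q1` is taken as a hypothesis -/
theorem limK3' (hf : FourStatement) (hf2 : Four2Statement)
    (hq : ∀ X : ℝ, 0 ≤ X → q1 X ≠ 0) : LimK3Statement := by
  intro w hw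
  have hQ := ((limQ hf) w hw (fun N => N) (by
    refine tendsto_const_nhds.congr' ?_
    filter_upwards [eventually_ge_atTop 1] with N hN
    have hN' : (N : ℝ) ≠ 0 := by
      have : N ≠ 0 := by omega
      exact_mod_cast this
    rw [div_self hN'])).1
  set X := 2 * √2 * w with hX
  have hXpos : 0 ≤ X := by positivity
  have hNx : Tendsto (fun N : ℕ => (N : ℝ) * xN w N) atTop (𝓝 (X / 2)) := by
    have h := (limX w hw).1
    rw [show X / 2 = √2 * w by rw [hX]; ring]
    exact h
  have hk0 : Tendsto (fun N : ℕ => ((2 * N : ℕ) : ℝ) / N) atTop (𝓝 2) := by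
    refine tendsto_const_nhds.congr' ?_
    filter_upwards [eventually_ge_atTop 1] with N hN
    have hN' : (N : ℝ) ≠ 0 := by
      have : N ≠ 0 := by omega
      exact_mod_cast this
    push_cast
    field_simp
  have hk1 : Tendsto (fun N : ℕ => ((2 * N - 1 : ℕ) : ℝ) / N) atTop (𝓝 2) := by
    have h1 : Tendsto (fun N : ℕ => 2 - 1 / (N : ℝ)) atTop (𝓝 (2 - 0)) :=
      tendsto_const_nhds.sub tendsto_one_div_atTop_nhds_zero_nat
    rw [sub_zero] at h1
    refine h1.congr' ?_
    filter_upwards [eventually_ge_atTop 1] with N hN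
    have hN' : (N : ℝ) ≠ 0 := by
      have : N ≠ 0 := by omega
      exact_mod_cast this
    rw [Nat.cast_sub (by omega)]
    push_cast
    field_simp
  have hk2 : Tendsto (fun N : ℕ => ((2 * N - 2 : ℕ) : ℝ) / N) atTop (𝓝 2) := by
    have h1 : Tendsto (fun N : ℕ => 2 - 2 / (N : ℝ)) atTop (𝓝 (2 - 0)) :=
      tendsto_const_nhds.sub (tendsto_const_div_atTop_nhds_zero_nat 2)
    rw [sub_zero] at h1
    refine h1.congr' ?_
    filter_upwards [eventually_ge_atTop 1] with N hN
    have hN' : (N : ℝ) ≠ 0 := by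
      have : N ≠ 0 := by omega
      exact_mod_cast this
    rw [Nat.cast_sub (by omega)]
    push_cast
    field_simp
  set f0 : ℝ → ℝ := fun θ => 8 * Real.sin θ ^ 2 * Real.cos θ ^ 2 -
    4 * Real.sin θ ^ 2 * Real.cos (2 * θ) with hf0
  set f1 : ℝ → ℝ := fun θ => 32 * Real.cos θ * Real.sin θ ^ 4 with hf1
  set f3 : ℝ → ℝ := fun θ => 32 * Real.sin θ ^ 6 with hf3
  have i0 := limI w hw (fun N => 2 * N) 2 hk0 f0 (by rw [hf0]; fun_prop)
  have i1 := limI w hw (fun N => 2 * N - 1) 2 hk1 f1 (by rw [hf1]; fun_prop)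
  have i2 := limI w hw (fun N => 2 * N - 2) 2 hk2 f3 (by rw [hf3]; fun_prop)
  have hX2 : 2 * √2 * w * 2 = 2 * X := by rw [hX]; ring
  rw [hX2] at i0 i1 i2
  have hnum : Tendsto (fun N : ℕ => ∑ m ∈ Icc (-(N : ℤ) - 1) (N + 1),
      (m : ℝ) ^ 2 * (Qn (xN w N) N m ^ 2 - Qn (xN w N) N (m - 1) * Qn (xN w N) N (m + 1))) atTop
      (𝓝 (bb (2 * X) (fun θ => 8 * Real.sin θ ^ 2 * (Real.cos θ - X * Real.sin θ ^ 2) ^ 2 -
        4 * Real.sin θ ^ 2 * Real.cos (2 * θ)))) := by
    have h1 := (i0.sub (hNx.mul i1)).add ((hNx.pow 2).mul i2)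
    have e1 : bb (2 * X) f0 - X / 2 * bb (2 * X) f1 + (X / 2) ^ 2 * bb (2 * X) f3 =
        bb (2 * X) (fun θ => 8 * Real.sin θ ^ 2 * (Real.cos θ - X * Real.sin θ ^ 2) ^ 2 -
        4 * Real.sin θ ^ 2 * Real.cos (2 * θ)) := by
      unfold bb
      have e2 : (∫ θ in (-Real.pi)..Real.pi, (8 * Real.sin θ ^ 2 *
          (Real.cos θ - X * Real.sin θ ^ 2) ^ 2 - 4 * Real.sin θ ^ 2 * Real.cos (2 * θ)) *
          Real.exp (2 * X * Real.cos θ)) =
          ((∫ θ in (-Real.pi)..Real.pi, f0 θ * Real.exp (2 * X * Real.cos θ)) -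
            ∫ θ in (-Real.pi)..Real.pi, X / 2 * (f1 θ * Real.exp (2 * X * Real.cos θ))) +
            ∫ θ in (-Real.pi)..Real.pi, (X / 2) ^ 2 * (f3 θ * Real.exp (2 * X * Real.cos θ)) := by
        rw [← intervalIntegral.integral_sub, ← intervalIntegral.integral_add]
        · refine intervalIntegral.integral_congr fun θ _ => ?_
          simp only [hf0, hf1, hf3]
          ring
        · exact (by rw [hf0, hf1]; fun_prop : Continuous fun θ =>
            f0 θ * Real.exp (2 * X * Real.cos θ) -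
            X / 2 * (f1 θ * Real.exp (2 * X * Real.cos θ))).intervalIntegrable _ _
        · exact (by rw [hf3]; fun_prop : Continuous fun θ =>
            (X / 2) ^ 2 * (f3 θ * Real.exp (2 * X * Real.cos θ))).intervalIntegrable _ _
        · exact (by rw [hf0]; fun_prop : Continuous fun θ =>
            f0 θ * Real.exp (2 * X * Real.cos θ)).intervalIntegrable _ _
        · exact (by rw [hf1]; fun_prop : Continuous fun θ =>
            X / 2 * (f1 θ * Real.exp (2 * X * Real.cos θ))).intervalIntegrable _ _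
      rw [e2, intervalIntegral.integral_const_mul, intervalIntegral.integral_const_mul]
      ring
    rw [e1] at h1
    refine h1.congr' ?_
    filter_upwards [eventually_ge_atTop 1] with N hN
    rw [hf2 (xN w N) N]
    have e3 : (∫ θ in (-Real.pi)..Real.pi,
        (2 * Real.sin θ ^ 2 * (2 * Real.cos θ * (1 + xN w N ^ 2 + 2 * xN w N * Real.cos θ) ^ N -
        4 * N * xN w N * Real.sin θ ^ 2 *
          (1 + xN w N ^ 2 + 2 * xN w N * Real.cos θ) ^ (N - 1)) ^ 2 -
        4 * Real.sin θ ^ 2 * Real.cos (2 * θ) *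
          (1 + xN w N ^ 2 + 2 * xN w N * Real.cos θ) ^ (2 * N))) =
        ((∫ θ in (-Real.pi)..Real.pi, f0 θ *
          (1 + xN w N ^ 2 + 2 * xN w N * Real.cos θ) ^ (2 * N)) -
          ∫ θ in (-Real.pi)..Real.pi, ((N : ℝ) * xN w N) * (f1 θ *
          (1 + xN w N ^ 2 + 2 * xN w N * Real.cos θ) ^ (2 * N - 1))) +
          ∫ θ in (-Real.pi)..Real.pi, ((N : ℝ) * xN w N) ^ 2 * (f3 θ *
          (1 + xN w N ^ 2 + 2 * xN w N * Real.cos θ) ^ (2 * N - 2)) := by
      rw [← intervalIntegral.integral_sub, ← intervalIntegral.integral_add]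
      · refine intervalIntegral.integral_congr fun θ _ => ?_
        simp only [hf0, hf1, hf3]
        obtain ⟨n, rfl⟩ : ∃ n, N = n + 1 := ⟨N - 1, by omega⟩
        rw [show 2 * (n + 1) - 1 = 2 * n + 1 by omega, show 2 * (n + 1) - 2 = 2 * n by omega,
          show n + 1 - 1 = n by omega, show 2 * (n + 1) = 2 * n + 2 by ring]
        ring
      · exact (by rw [hf0, hf1]; fun_prop : Continuous fun θ =>
            f0 θ * (1 + xN w N ^ 2 + 2 * xN w N * Real.cos θ) ^ (2 * N) -
            ((N : ℝ) * xN w N) * (f1 θ *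
          (1 + xN w N ^ 2 + 2 * xN w N * Real.cos θ) ^ (2 * N - 1))).intervalIntegrable _ _
      · exact (by rw [hf3]; fun_prop : Continuous fun θ =>
            ((N : ℝ) * xN w N) ^ 2 * (f3 θ *
          (1 + xN w N ^ 2 + 2 * xN w N * Real.cos θ) ^ (2 * N - 2))).intervalIntegrable _ _
      · exact (by rw [hf0]; fun_prop : Continuous fun θ =>
            f0 θ * (1 + xN w N ^ 2 + 2 * xN w N * Real.cos θ) ^ (2 * N)).intervalIntegrable _ _
      · exact (by rw [hf1]; fun_prop : Continuous fun θ =>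
            ((N : ℝ) * xN w N) * (f1 θ *
          (1 + xN w N ^ 2 + 2 * xN w N * Real.cos θ) ^ (2 * N - 1))).intervalIntegrable _ _
    rw [e3, intervalIntegral.integral_const_mul, intervalIntegral.integral_const_mul]
    ring
  unfold K3
  exact (hnum.const_mul (3 / 2)).div (hQ.pow 2) (pow_ne_zero 2 (hq X hXpos))

/-- LIMK3 -/
theorem limK3 (hf : FourStatement) (hf2 : Four2Statement) : LimK3Statement :=
  limK3' hf hf2 fun X _ => (q1_pos X).ne'

end Pool.Agent.Helper92_Strip
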