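import Pool.Agent.Helper38_Strip.Statements

/-!
# MOMY: second moments of `Psi` and of the profile
-/

namespace Pool.Agent.Helper92_Strip

open Finset Pool.Agent.Helper38_Strip

lemma sg_succ (t i : ℕ) : sg (t + 1) i = - sg t i := by
  unfold sg
  by_cases h : (t + i) % 2 = 0
  · have h' : (t + 1 + i) % 2 ≠ 0 := by omega
    simp [h, h']
  · have h' : (t + 1 + i) % 2 = 0 := by omega
    simp [h, h']

lemma ht_succ {N : ℕ} (t : ℕ) (c : Conf N) (m : ℕ) : ht (t + 1) c m = - ht t c m := by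
  unfold ht
  rw [← Finset.sum_neg_distrib]
  refine Finset.sum_congr rfl fun i _ => ?_
  by_cases h : (i : ℕ) < m ∧ c i = true
  · simp [h, sg_succ]
  · rw [if_neg h, if_neg h, neg_zero]

lemma ht_add_two {N : ℕ} (t : ℕ) (c : Conf N) (m : ℕ) : ht (t + 2) c m = ht t c m := by
  rw [show t + 2 = (t + 1) + 1 from rfl, ht_succ, ht_succ, neg_neg]

lemma ht_zero {N : ℕ} (t : ℕ) (c : Conf N) : ht t c 0 = 0 := by
  unfold ht
  exact Finset.sum_eq_zero fun i _ => by simp

lemma le_mx {N : ℕ} (f : ℕ → ℤ) {m : ℕ} (hm : m ≤ N) : f m ≤ mx N f := by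
  unfold mx
  exact Finset.le_sup' f (Finset.mem_range.2 (by omega))

lemma mx_le {N : ℕ} (f : ℕ → ℤ) (a : ℤ) (h : ∀ m ≤ N, f m ≤ a) : mx N f ≤ a := by
  unfold mx
  exact Finset.sup'_le _ _ fun m hm => h m (by have := Finset.mem_range.1 hm; omega)

lemma mx_attained {N : ℕ} (f : ℕ → ℤ) : ∃ m ≤ N, mx N f = f m := by
  unfold mx
  obtain ⟨m, hm, h⟩ := Finset.exists_mem_eq_sup' (s := range (N + 1))
    nonempty_range_add_one f
  exact ⟨m, by have := Finset.mem_range.1 hm; omega, h⟩

lemma mx_congr {N : ℕ} {f g : ℕ → ℤ} (h : ∀ m ≤ N, f m = g m) : mx N f = mx N g :=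
  le_antisymm (mx_le _ _ fun m hm => (h m hm).trans_le (le_mx g hm))
    (mx_le _ _ fun m hm => (h m hm).symm.trans_le (le_mx f hm))

section rows

variable {N : ℕ}

lemma rowP_nonneg {p : ℝ} (h0 : 0 ≤ p) (h1 : p ≤ 1) (o : Row N) : 0 ≤ rowP p o := by
  unfold rowP
  refine Finset.prod_nonneg fun m _ => ?_
  split_ifs
  · exact h0
  · linarith

lemma rowP_sum (p : ℝ) : ∑ o : Row N, rowP p o = 1 := by
  unfold rowP
  have h := Finset.prod_univ_sum (fun _ : Fin (N + 1) => (univ : Finset Bool))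
    (fun _ b => if b = true then p else 1 - p)
  rw [Fintype.piFinset_univ] at h
  rw [← h]
  simp

lemma rE_const (p a : ℝ) : rE p (fun _ : Row N => a) = a := by
  unfold rE
  rw [← Finset.sum_mul, rowP_sum, one_mul]

lemma rE_mono {p : ℝ} (h0 : 0 ≤ p) (h1 : p ≤ 1) {F G : Row N → ℝ} (h : ∀ o, F o ≤ G o) :
    rE p F ≤ rE p G := by
  unfold rE
  exact Finset.sum_le_sum fun o _ => mul_le_mul_of_nonneg_left (h o) (rowP_nonneg h0 h1 o)

lemma rE_sub (p : ℝ) (F G : Row N → ℝ) : rE p (fun o => F o - G o) = rE p F - rE p G := by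
  unfold rE
  rw [← Finset.sum_sub_distrib]
  exact Finset.sum_congr rfl fun o _ => by ring

end rows

section main

variable {N : ℕ} {x : ℝ}

lemma sE_mono (hb : BasicStatement) (hx : 0 < x) (t : ℕ) {F G : Conf N → ℝ}
    (h : ∀ c, F c ≤ G c) : sE x t F ≤ sE x t G := by
  unfold sE
  exact Finset.sum_le_sum fun c _ => mul_le_mul_of_nonneg_left (h c) ((hb x hx N t).2.1 c)

lemma sE_const (hb : BasicStatement) (hx : 0 < x) (t : ℕ) (a : ℝ) :
    sE x t (fun _ : Conf N => a) = a := by
  unfold sE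
  rw [← Finset.sum_mul, (hb x hx N t).2.2.1, one_mul]

lemma sE_sub (t : ℕ) (F G : Conf N → ℝ) :
    sE x t (fun o => F o - G o) = sE x t F - sE x t G := by
  unfold sE
  rw [← Finset.sum_sub_distrib]
  exact Finset.sum_congr rfl fun o _ => by ring

lemma sE_add (t : ℕ) (F G : Conf N → ℝ) :
    sE x t (fun o => F o + G o) = sE x t F + sE x t G := by
  unfold sE
  rw [← Finset.sum_add_distrib]
  exact Finset.sum_congr rfl fun o _ => by ring

lemma sE_mul (t : ℕ) (a : ℝ) (F : Conf N → ℝ) :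
    sE x t (fun o => a * F o) = a * sE x t F := by
  unfold sE
  rw [Finset.mul_sum]
  exact Finset.sum_congr rfl fun o _ => by ring

lemma sE_add_two (hb : BasicStatement) (hx : 0 < x) (t : ℕ) (F : Conf N → ℝ) :
    sE x (t + 2) F = sE x t F := by
  unfold sE
  exact Finset.sum_congr rfl fun c _ => by rw [(hb x hx N t).2.2.2.1 c]

/-- expectation of a function of the second profile of a pair -/
lemma pair_second (hb : BasicStatement) (hx : 0 < x) (t : ℕ) (F : Conf N → ℝ) :
    (∑ c : Conf N, ∑ d : Conf N, pw x t c d * F d) / Zf x t N = sE x (t + 1) F := by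
  unfold sE
  rw [Finset.sum_comm, Finset.sum_div]
  refine Finset.sum_congr rfl fun d _ => ?_
  unfold st
  rw [(hb x hx N t).2.2.2.2.1, ← Finset.sum_mul]
  have h : ∀ c : Conf N, pw x t c d = pw x (t + 1) d c := fun c =>
    (hb x hx N t).2.2.2.2.2 c d
  rw [Finset.sum_congr rfl fun c _ => h c]
  ring

lemma pair_first (t : ℕ) (F : Conf N → ℝ) :
    (∑ c : Conf N, ∑ d : Conf N, pw x t c d * F c) / Zf x t N = sE x t F := by
  unfold sE
  rw [Finset.sum_div]
  refine Finset.sum_congr rfl fun d _ => ?_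
  unfold st
  rw [← Finset.sum_mul]
  ring

lemma pw_nonneg (hx : 0 < x) (t : ℕ) (c d : Conf N) : 0 ≤ pw x t c d := by
  unfold pw
  split_ifs
  · positivity
  · exact le_rfl

/-- comparison along a pair -/
lemma pair_le (hb : BasicStatement) (hx : 0 < x) (t : ℕ) (F G : Conf N → ℝ)
    (h : ∀ c d : Conf N, (∀ m ≤ N, ht t d m ≤ ht t c m) → F c ≤ G d) :
    sE x t F ≤ sE x (t + 1) G := by
  rw [← pair_first, ← pair_second hb hx]
  refine div_le_div_of_nonneg_right ?_ (hb x hx N t).1.le
  refine Finset.sum_le_sum fun c _ => Finset.sum_le_sum fun d _ => ?_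
  by_cases hcd : (∀ m ≤ N, ht t d m ≤ ht t c m) ∧ ht t c N = ht t d N
  · exact mul_le_mul_of_nonneg_left (h c d hcd.1) (pw_nonneg hx t c d)
  · simp [pw, hcd]

lemma updH_ge (t : ℕ) (h : ℕ → ℤ) (o : Row N) (m : ℕ) : h m ≤ updH N t h o m := by
  unfold updH
  split_ifs
  · refine le_max_of_le_left (by omega)
  · refine le_max_of_le_left (by omega)
  · exact le_rfl

/-- mean height, lower bound -/
lemma mean_ge (hb : BasicStatement) (hs : StatStatement) (hu : UpdHStatement)
    (hx : 0 < x) (hx1 : x < 1) (hN : 1 ≤ N) (t m : ℕ) (hm : m ≤ N) :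
    -(1 / 2 : ℝ) ≤ sE x t (fun c : Conf N => (ht t c m : ℝ)) := by
  have hp0 : 0 ≤ x ^ 2 := by positivity
  have hp1 : x ^ 2 ≤ 1 := by nlinarith
  -- (i)
  have h1 : ∀ t : ℕ, - sE x t (fun c : Conf N => (ht t c m : ℝ)) ≤
      sE x (t + 1) (fun c : Conf N => (ht (t + 1) c m : ℝ)) := by
    intro t
    have h := pair_le hb hx t (fun c : Conf N => -(ht t c m : ℝ))
      (fun d : Conf N => (ht (t + 1) d m : ℝ)) (by
        intro c d hcd
        have h := hcd m hm
        have h' : ht (t + 1) d m = - ht t d m := ht_succ t d m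
        have : -(ht t c m) ≤ ht (t + 1) d m := by omega
        exact_mod_cast this)
    have h2 : sE x t (fun c : Conf N => -(ht t c m : ℝ)) =
        - sE x t (fun c : Conf N => (ht t c m : ℝ)) := by
      have := sE_mul (x := x) t (-1) (fun c : Conf N => (ht t c m : ℝ))
      simpa using this
    linarith
  -- (ii)
  have h2 : ∀ t : ℕ, sE x t (fun c : Conf N => (ht t c m : ℝ)) ≤
      sE x (t + 1) (fun c : Conf N => (ht (t + 1) c m : ℝ)) + 1 := by
    intro t
    have h := hs x hx hx1 N t hN (fun c : Conf N => (ht (t + 1) c m : ℝ))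
    rw [← h]
    have h3 : sE x t (fun c : Conf N => (ht t c m : ℝ)) - 1 =
        sE x t (fun c : Conf N => (ht t c m : ℝ) - 1) := by
      rw [sE_sub, sE_const hb hx]
    have h4 : sE x t (fun c : Conf N => (ht t c m : ℝ) - 1) ≤
        sE x t (fun c : Conf N => rE (x ^ 2) fun o => (ht (t + 1) (upd t c o) m : ℝ)) := by
      refine sE_mono hb hx t fun c => ?_
      have h5 : (ht t c m : ℝ) - 1 = rE (x ^ 2) (fun _ : Row N => (ht t c m : ℝ) - 1) :=
        (rE_const _ _).symm
      rw [h5]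
      refine rE_mono hp0 hp1 fun o => ?_
      have h6 := hu N t hN c o m hm
      have h7 := updH_ge (N := N) t (ht t c) o m
      have h8 : cur t c o ≤ 1 := by
        unfold cur
        split_ifs <;> omega
      have h9 : ht t c m - 1 ≤ ht (t + 1) (upd t c o) m := by omega
      exact_mod_cast h9
    linarith
  have h3 := h1 (t + 1)
  have h4 := h2 (t + 1)
  have h5 := h1 t
  have h6 : sE x (t + 1 + 1) (fun c : Conf N => (ht (t + 1 + 1) c m : ℝ)) =
      sE x t (fun c : Conf N => (ht t c m : ℝ)) := by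
    have : (fun c : Conf N => (ht (t + 1 + 1) c m : ℝ)) = fun c : Conf N => (ht t c m : ℝ) := by
      funext c
      rw [show t + 1 + 1 = t + 2 from rfl, ht_add_two]
    rw [this, show t + 1 + 1 = t + 2 from rfl, sE_add_two hb hx]
  linarith

/-- Jensen -/
lemma sE_sq_le (hb : BasicStatement) (hx : 0 < x) (t : ℕ) (F : Conf N → ℝ) :
    (sE x t F) ^ 2 ≤ sE x t (fun c => F c ^ 2) := by
  set a := sE x t F with ha
  have h : 0 ≤ sE x t (fun c => (F c - a) ^ 2) := by
    unfold sE
    exact Finset.sum_nonneg fun c _ => mul_nonneg ((hb x hx N t).2.1 c) (sq_nonneg _)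
  have h2 : sE x t (fun c => (F c - a) ^ 2) = sE x t (fun c => F c ^ 2) - a ^ 2 := by
    have e : (fun c : Conf N => (F c - a) ^ 2) =
        fun c => F c ^ 2 - (2 * a * F c - a ^ 2) := by
      funext c; ring
    rw [e, sE_sub, sE_sub, sE_mul, sE_const hb hx, ← ha]
    ring
  linarith

/-- the second moment of the maximum, at any time -/
lemma K2_eq (hb : BasicStatement) (hx : 0 < x) (t : ℕ) :
    sE x t (fun c : Conf N => sE x (t + 1) fun g : Conf N =>
      ((mx N fun m => ht t c m + ht (t + 1) g m : ℤ) : ℝ) ^ 2) = K2 x N := by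
  induction t with
  | zero =>
    unfold sE K2 YY
    refine Finset.sum_congr rfl fun c _ => ?_
    rw [Finset.mul_sum]
    exact Finset.sum_congr rfl fun g _ => by simp only [zero_add]; ring
  | succ t ih =>
    rw [← ih]
    have e : ∀ c g : Conf N, (mx N fun m => ht (t + 1) c m + ht (t + 1 + 1) g m) =
        mx N fun m => ht t g m + ht (t + 1) c m := by
      intro c g
      refine mx_congr fun m _ => ?_
      rw [show t + 1 + 1 = t + 2 from rfl, ht_add_two]
      ring
    unfold sE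
    simp only [Finset.mul_sum]
    rw [Finset.sum_comm]
    refine Finset.sum_congr rfl fun g _ => ?_
    refine Finset.sum_congr rfl fun c _ => ?_
    rw [e c g, show t + 1 + 1 = t + 2 from rfl, (hb x hx N t).2.2.2.1 g]
    ring

lemma psi_sq_le (hb : BasicStatement) (hx : 0 < x) (t : ℕ) :
    (sE x t fun c : Conf N => Psi x t c ^ 2) ≤ K2 x N := by
  rw [← K2_eq hb hx t]
  refine sE_mono hb hx t fun c => ?_
  exact sE_sq_le hb hx (t + 1) _

/-- the maximum of a profile is controlled by `Psi` -/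
lemma mx_le_psi (hb : BasicStatement) (hs : StatStatement) (hu : UpdHStatement)
    (hx : 0 < x) (hx1 : x < 1) (hN : 1 ≤ N) (t : ℕ) (c : Conf N) :
    ((mx N (ht t c) : ℤ) : ℝ) ≤ Psi x t c + 1 / 2 := by
  obtain ⟨m, hm, h⟩ := mx_attained (N := N) (ht t c)
  rw [h]
  have h1 := mean_ge hb hs hu hx hx1 hN (t + 1) m hm
  have h2 : (ht t c m : ℝ) + sE x (t + 1) (fun g : Conf N => (ht (t + 1) g m : ℝ)) ≤
      Psi x t c := by
    have e : (ht t c m : ℝ) + sE x (t + 1) (fun g : Conf N => (ht (t + 1) g m : ℝ)) =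
        sE x (t + 1) (fun g : Conf N => (ht t c m : ℝ) + (ht (t + 1) g m : ℝ)) := by
      rw [sE_add, sE_const hb hx]
    rw [e]
    refine sE_mono hb hx (t + 1) fun g => ?_
    have := le_mx (N := N) (fun m => ht t c m + ht (t + 1) g m) hm
    exact_mod_cast this
  linarith

/-- MOMY -/
theorem momY (hb : BasicStatement) (hs : StatStatement) (hu : UpdHStatement) :
    MomYStatement := by
  intro x hx hx1 N t hN
  refine ⟨psi_sq_le hb hx t, ?_⟩
  -- positive part
  have hP : sE x t (fun c : Conf N => ((mx N (ht t c) : ℤ) : ℝ) ^ 2) ≤ 2 * K2 x N + 1 / 2 := by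
    have h1 : sE x t (fun c : Conf N => ((mx N (ht t c) : ℤ) : ℝ) ^ 2) ≤
        sE x t (fun c : Conf N => 2 * Psi x t c ^ 2 + 1 / 2) := by
      refine sE_mono hb hx t fun c => ?_
      have h2 := mx_le_psi hb hs hu hx hx1 hN t c
      have h3 : (0 : ℝ) ≤ ((mx N (ht t c) : ℤ) : ℝ) := by
        have := le_mx (N := N) (ht t c) (Nat.zero_le N)
        rw [ht_zero] at this
        exact_mod_cast this
      nlinarith [sq_nonneg (Psi x t c - 1 / 2)]
    rw [sE_add, sE_mul, sE_const hb hx] at h1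
    have h2 := psi_sq_le (N := N) hb hx t
    linarith
  have hM : sE x t (fun c : Conf N => ((mx N (fun m => - ht t c m) : ℤ) : ℝ) ^ 2) ≤
      2 * K2 x N + 1 / 2 := by
    have h1 : sE x t (fun c : Conf N => ((mx N (fun m => - ht t c m) : ℤ) : ℝ) ^ 2) ≤
        sE x (t + 1) (fun d : Conf N => 2 * Psi x (t + 1) d ^ 2 + 1 / 2) := by
      refine pair_le hb hx t _ _ fun c d hcd => ?_
      have h2 := mx_le_psi hb hs hu hx hx1 hN (t + 1) d
      have h3 : (0 : ℤ) ≤ mx N (fun m => - ht t c m) := by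
        have := le_mx (N := N) (fun m => - ht t c m) (Nat.zero_le N)
        simpa [ht_zero] using this
      have h3' : (0 : ℝ) ≤ ((mx N (fun m => - ht t c m) : ℤ) : ℝ) := by exact_mod_cast h3
      have h4 : mx N (fun m => - ht t c m) ≤ mx N (ht (t + 1) d) := by
        refine mx_le _ _ fun m hm => ?_
        have h5 := le_mx (N := N) (ht (t + 1) d) hm
        have h6 := hcd m hm
        have h7 := ht_succ t d m
        omega
      have h4' : ((mx N (fun m => - ht t c m) : ℤ) : ℝ) ≤ ((mx N (ht (t + 1) d) : ℤ) : ℝ) := by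
        exact_mod_cast h4
      nlinarith [sq_nonneg (Psi x (t + 1) d - 1 / 2)]
    rw [sE_add, sE_mul, sE_const hb hx] at h1
    have h2 := psi_sq_le (N := N) hb hx (t + 1)
    linarith
  have hA : sE x t (fun c : Conf N => (AA t c : ℝ) ^ 2) ≤
      sE x t (fun c : Conf N => ((mx N (ht t c) : ℤ) : ℝ) ^ 2 +
        ((mx N (fun m => - ht t c m) : ℤ) : ℝ) ^ 2) := by
    refine sE_mono hb hx t fun c => ?_
    obtain ⟨m, hm, h⟩ := mx_attained (N := N) (fun m => |ht t c m|)
    have h1 := le_mx (N := N) (ht t c) hm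
    have h2 := le_mx (N := N) (fun m => - ht t c m) hm
    have h0 : (AA t c : ℤ) = |ht t c m| := h
    have h3 : (AA t c) ^ 2 ≤ (mx N (ht t c)) ^ 2 + (mx N (fun m => - ht t c m)) ^ 2 := by
      rw [h0, sq_abs]
      rcases le_total 0 (ht t c m) with h4 | h4
      · nlinarith [sq_nonneg (mx N (fun m => - ht t c m))]
      · have h2' : - ht t c m ≤ mx N (fun m => - ht t c m) := h2
        nlinarith [sq_nonneg (mx N (ht t c))]
    exact_mod_cast h3
  rw [sE_add] at hA
  linarith

end main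

end Pool.Agent.Helper92_Strip
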